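import Pool.Agent.MP_888de5_co.Sidon

namespace Pool.Agent.MP_888de5_co

open Function Finset

namespace Tower

variable {Ω : Type} [Field Ω] {T : Tower Ω} {M : ℕ} {π : ℕ → Ω →+ Ω} {ι : Type}
  {lev bas : ι → ℕ} {lab : ι → Ω}

/-- The elements of the top field that lie in the `n`-th field. -/
def sub (T : Tower Ω) (M n : ℕ) : AddSubgroup (T.F M) :=
  (T.F n).toAddSubgroup.comap (T.F M).subtype.toAddMonoidHom

/-- The kernel of the `n`-th projection on the top field. -/
def kr (T : Tower Ω) (M : ℕ) (π : ℕ → Ω →+ Ω) (n : ℕ) : AddSubgroup (T.F M) :=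
  ((π n).comp (T.F M).subtype.toAddMonoidHom).ker

theorem mem_sub {n : ℕ} {x : T.F M} : x ∈ sub T M n ↔ (x : Ω) ∈ T.F n := Iff.rfl

theorem mem_kr {n : ℕ} {x : T.F M} : x ∈ kr T M π n ↔ π n x = 0 := Iff.rfl

theorem card_sub (n : ℕ) : Nat.card (sub T M n) ≤ T.f n := by
  have := T.fin n
  refine Nat.card_le_card_of_injective (fun x : sub T M n => (⟨x.1.1, x.2⟩ : T.F n)) ?_
  intro x y h
  exact Subtype.ext (Subtype.ext (congrArg (fun z : T.F n => (z : Ω)) h))

theorem card_kr_le (hP : T.Proj M π) {n : ℕ} (hn : n ≤ M) :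
    Nat.card (kr T M π n) * T.f n ≤ T.f M := by
  have := T.fin M
  rw [f, ← Nat.card_prod]
  refine Nat.card_le_card_of_injective
    (fun x : kr T M π n × T.F n => (x.1.1 + ⟨x.2.1, T.mono hn x.2.2⟩ : T.F M)) ?_
  rintro ⟨k, x⟩ ⟨k', x'⟩ h
  have h1 : (k.1 : Ω) + x = k'.1 + x' := congrArg Subtype.val h
  have h2 := congrArg (π n) h1
  rw [map_add, map_add, mem_kr.mp k.2, mem_kr.mp k'.2, hP.id n hn _ x.2, hP.id n hn _ x'.2,
    zero_add, zero_add] at h2
  rw [h2, add_left_inj] at h1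
  exact Prod.ext (Subtype.ext (Subtype.ext h1)) (Subtype.ext h2)

theorem exists_finset (T : Tower Ω) (n : ℕ) :
    ∃ s : Finset Ω, (∀ x, x ∈ T.F n → x ∈ s) ∧ s.card = T.f n := by
  classical
  have := T.fin n
  have : Fintype (T.F n) := Fintype.ofFinite _
  refine ⟨univ.map ⟨(Subtype.val : T.F n → Ω), Subtype.val_injective⟩, fun x hx => ?_, ?_⟩
  · exact mem_map.mpr ⟨⟨x, hx⟩, mem_univ _, rfl⟩
  · rw [card_map, card_univ, f, Nat.card_eq_fintype_card]

open Classical in
theorem card_level [Fintype (T.F M)] (hP : T.Proj M π) (hL : T.Levels M lev bas lab) (i : ι) :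
    T.f M ≤ (univ.filter fun x : T.F M × T.F M => At T π lev bas lab i x.1 x.2).card *
      (T.f (bas i) * 3) := by
  have hn := hL.le i
  have hb := hL.lt i
  have := T.fin (lev i)
  have : Fintype (T.F (lev i)) := Fintype.ofFinite _
  obtain ⟨m, hm⟩ : ∃ m, lev i = m + 1 := ⟨lev i - 1, by omega⟩
  obtain ⟨e, he, he1⟩ := T.φ_one m
  rw [← hm] at he he1
  obtain ⟨sb, hsb, csb⟩ := T.exists_finset (bas i)
  obtain ⟨sn, hsn, csn⟩ := T.exists_finset (lev i)
  have hpe : π m e ∈ T.F m := hP.mem m (by omega) e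
  have hx0 : lab i + (e - π m e) ∈ T.F (lev i) :=
    add_mem (T.mono hb.le (hL.mem i)) (sub_mem he (T.mono (by omega) hpe))
  let ψ : T.F (lev i) →+ Ω × ZMod 3 :=
    ((π (bas i)).prod (T.φ (lev i))).comp (T.F (lev i)).subtype.toAddMonoidHom
  have hψ : ψ ⟨_, hx0⟩ = (lab i, 1) := by
    change (π (bas i) (lab i + (e - π m e)), T.φ (lev i) (lab i + (e - π m e))) = _
    rw [map_add, map_add, map_sub, map_sub, hP.comp _ _ (by omega) (by omega), sub_self, add_zero,
      hP.id _ (by omega) _ (hL.mem i), T.φ_lt hb (hL.mem i), he1, T.φ_lt (by omega) hpe]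
    simp
  have h1 := card_le_fiber ψ (sb ×ˢ univ)
    (fun x => mem_product.mpr ⟨hsb _ (hP.mem _ (by omega) _), mem_univ _⟩) ⟨_, hx0⟩
  rw [hψ, card_product, csb, card_univ, ZMod.card] at h1
  let χ : T.F M →+ Ω := (π (lev i)).comp (T.F M).subtype.toAddMonoidHom
  have h2 := card_le_fiber χ sn (fun x => hsn _ (hP.mem _ hn _)) 0
  rw [map_zero, csn] at h2
  set D := univ.filter fun x => ψ x = (lab i, 1)
  set R := univ.filter fun x => χ x = 0
  have h3 : (D ×ˢ R).card ≤
      (univ.filter fun x : T.F M × T.F M => At T π lev bas lab i x.1 x.2).card := by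
    refine card_le_card_of_injOn
      (fun x => (⟨x.1.1, T.mono hn x.1.2⟩, ⟨x.1.1, T.mono hn x.1.2⟩ ^ 2 + x.2)) ?_ ?_
    · rintro ⟨X, k⟩ hx
      have hx' := mem_product.mp (mem_coe.mp hx)
      have e1 : (π (bas i) X, T.φ (lev i) X) = (lab i, 1) := (mem_filter.mp hx'.1).2
      have e2 : π (lev i) k = 0 := (mem_filter.mp hx'.2).2
      refine mem_coe.mpr (mem_filter.mpr ⟨mem_univ _, X.2, (Prod.mk.inj e1).2, (Prod.mk.inj e1).1,
        ?_⟩)
      change π (lev i) ((X : Ω) ^ 2 + k) = (X : Ω) ^ 2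
      rw [map_add, e2, add_zero, hP.id _ hn _ (pow_mem X.2 2)]
    · rintro ⟨X, k⟩ _ ⟨X', k'⟩ _ h
      have e1 : X = X' := Subtype.ext (congrArg (fun x => (x.1 : Ω)) h)
      subst e1
      have e2 : k = k' := add_left_cancel (congrArg Prod.snd h)
      rw [e2]
  rw [card_product] at h3
  have e1 : T.f M = Fintype.card (T.F M) := Nat.card_eq_fintype_card
  have e2 : T.f (lev i) = Fintype.card (T.F (lev i)) := Nat.card_eq_fintype_card
  rw [← e1] at h2
  rw [← e2] at h1
  calc T.f M ≤ R.card * T.f (lev i) := h2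
    _ ≤ R.card * (D.card * (T.f (bas i) * 3)) := Nat.mul_le_mul_left _ h1
    _ = D.card * R.card * (T.f (bas i) * 3) := by ring
    _ ≤ _ := Nat.mul_le_mul_right _ h3

open Classical in
theorem card_all [Fintype (T.F M)] [Fintype ι] (hP : T.Proj M π) (hL : T.Levels M lev bas lab) :
    (T.f M : ℝ) / 3 * ∑ i, 1 / (T.f (bas i) : ℝ) ≤
      (univ.filter fun x : T.F M × T.F M => ∃ i, At T π lev bas lab i x.1 x.2).card := by
  have h1 : (univ.filter fun x : T.F M × T.F M => ∃ i, At T π lev bas lab i x.1 x.2) =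
      univ.biUnion fun i => univ.filter fun x : T.F M × T.F M => At T π lev bas lab i x.1 x.2 := by
    ext x
    simp
  rw [h1, card_biUnion, mul_sum]
  · push_cast
    refine sum_le_sum fun i _ => ?_
    have h2 : (0 : ℝ) < T.f (bas i) := by exact_mod_cast T.f_pos _
    have h3 : (T.f M : ℝ) ≤ (univ.filter fun x : T.F M × T.F M =>
        At T π lev bas lab i x.1 x.2).card * (T.f (bas i) * 3) := by
      exact_mod_cast card_level hP hL i
    rw [div_mul_div_comm, mul_one, div_le_iff₀ (by positivity)]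
    linarith
  · intro i _ j _ hij
    rw [Function.onFun, disjoint_filter]
    intro x _ h1 h2
    rcases lt_trichotomy (lev i) (lev j) with h | h | h
    · exact absurd (h2.one.symm.trans (T.φ_lt h h1.mem)) (by decide)
    · exact hij (hL.inj h)
    · exact absurd (h1.one.symm.trans (T.φ_lt h h2.mem)) (by decide)

end Tower

/-- The discrete form of the counterexample: a set `E` of cells of an `N × N` grid all of whose
rectangles have area at most `N`, with `|E| ^ 2 / N ^ 3` as large as we please. -/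
theorem exists_cells (B : ℕ) : ∃ (G : Type) (_ : Fintype G) (pos : G → ℕ) (E : Finset (G × G)),
    0 < Fintype.card G ∧ Injective pos ∧ (∀ x, pos x < Fintype.card G) ∧
    (∀ g1 g2 h1 h2, (g1, h1) ∈ E → (g1, h2) ∈ E → (g2, h1) ∈ E → (g2, h2) ∈ E →
      ∃ a b : ℕ, a * b ≤ Fintype.card G ∧ pos g2 + 1 ≤ pos g1 + a ∧ pos h2 + 1 ≤ pos h1 + b) ∧
    ((B : ℝ) / 9) ^ 2 * (Fintype.card G : ℝ) ^ 3 ≤ (E.card : ℝ) ^ 2 := by
  classical
  obtain ⟨T⟩ := exists_tower
  obtain ⟨M, ι, _, lev, bas, lab, -, hL, hB⟩ := T.exists_levels B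
  obtain ⟨π, hP⟩ := T.exists_proj M
  have := T.fin M
  have : Fintype (T.F M) := Fintype.ofFinite _
  have ef : Fintype.card (T.F M) = T.f M := Nat.card_eq_fintype_card.symm
  have hf := T.f_pos M
  obtain ⟨p1, i1, l1, c1⟩ := exists_pos (Tower.sub T M) (fun i j hij x hx => T.mono hij hx) (M + 1)
  obtain ⟨p2, i2, l2, c2⟩ := exists_pos (fun i => Tower.kr T M π (M - i)) (fun i j hij x hx => by
    rw [Tower.mem_kr] at hx ⊢
    rw [← hP.comp _ (M - i) (by omega) (by omega), hx, map_zero]) (M + 1)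
  rw [ef] at l1 l2
  set S := univ.filter fun x : T.F M × T.F M => ∃ i, Tower.At T π lev bas lab i x.1 x.2 with hS
  have eN : Fintype.card (T.F M × T.F M) = T.f M * T.f M := by rw [Fintype.card_prod, ef]
  have fine : ∀ n ≤ M, ∀ x y : T.F M × T.F M, x.1 = y.1 → π n (x.2 - y.2) = 0 →
      p1 x.1 * T.f M + p2 x.2 + 1 ≤ p1 y.1 * T.f M + p2 y.2 + Nat.card (Tower.kr T M π n) := by
    intro n hn x y h1 h2
    have := c2 (M - n) (by omega) x.2 y.2 (by
      rw [show M - (M - n) = n by omega]; exact h2)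
    rw [show M - (M - n) = n by omega] at this
    rw [h1]
    omega
  have coarse : ∀ n ≤ M, ∀ x y : T.F M × T.F M, ((x.1 : _) - y.1 : AlgebraicClosure (ZMod 3)) ∈
      T.F n → p1 x.1 * T.f M + p2 x.2 + 1 ≤ p1 y.1 * T.f M + p2 y.2 + T.f n * T.f M := by
    intro n hn x y h1
    have h2 := (c1 n (by omega) x.1 y.1 h1).trans (Nat.add_le_add_left (Tower.card_sub n) _)
    have h3 := Nat.mul_le_mul_right (T.f M) h2
    have h4 := l2 x.2
    rw [add_mul, add_mul, one_mul] at h3
    omega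
  refine ⟨T.F M × T.F M, inferInstance, fun x => p1 x.1 * T.f M + p2 x.2,
    univ.filter fun x => x.1 - x.2 ∈ S, by rw [eN]; positivity, ?_, ?_, ?_, ?_⟩
  · intro x y h
    have h' : p1 x.1 * T.f M + p2 x.2 = p1 y.1 * T.f M + p2 y.2 := h
    have e1 := congrArg (· % T.f M) h'
    simp only [Nat.mul_add_mod_of_lt (l2 _)] at e1
    rw [e1, add_left_inj] at h'
    exact Prod.ext (i1 (Nat.eq_of_mul_eq_mul_right hf h')) (i2 e1)
  · intro x
    have h1 := Nat.mul_le_mul_right (T.f M) (Nat.succ_le_of_lt (l1 x.1))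
    have h2 := l2 x.2
    rw [Nat.succ_mul] at h1
    rw [eN]
    dsimp only
    omega
  · intro g1 g2 h1 h2 ha hc hb hd
    simp only [hS, mem_filter, mem_univ, true_and] at ha hb hc hd
    obtain ⟨ia, ha⟩ := ha
    obtain ⟨ib, hb⟩ := hb
    obtain ⟨ic, hc⟩ := hc
    obtain ⟨id, hd⟩ := hd
    obtain ⟨n, hn, h⟩ := Tower.sidon hP hL ha hb hc hd (by simp only [Prod.fst_sub]; push_cast; ring)
      (by simp only [Prod.snd_sub]; push_cast; ring)
    simp only [Prod.fst_sub, Prod.snd_sub] at h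
    push_cast at h
    have hk := Nat.mul_le_mul_right (T.f M) (Tower.card_kr_le hP hn)
    rcases h with ⟨e1, e2, e3⟩ | ⟨e1, e2, e3⟩
    · refine ⟨_, _, ?_, fine n hn g2 g1 (Subtype.ext (by linear_combination -e1)) ?_,
        coarse n hn h2 h1 ?_⟩
      · rw [eN, ← mul_assoc]; exact hk
      · rw [← neg_eq_zero, ← map_neg, ← e2]; congr 1; ring
      · convert e3 using 1; ring
    · refine ⟨_, _, ?_, coarse n hn g2 g1 ?_,
        fine n hn h2 h1 (Subtype.ext (by linear_combination e1)) ?_⟩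
      · rw [eN, mul_comm, ← mul_assoc]; exact hk
      · convert neg_mem e3 using 1; ring
      · rw [← e2]; congr 1; ring
  · have h1 : (univ.filter fun x : (T.F M × T.F M) × (T.F M × T.F M) => x.1 - x.2 ∈ S).card =
        S.card * (T.f M * T.f M) := by
      rw [← eN, ← card_univ, ← card_product]
      refine card_nbij' (fun x => (x.1 - x.2, x.2)) (fun x => (x.1 + x.2, x.2)) ?_ ?_ ?_ ?_
      · intro x hx
        simpa using hx
      · intro x hx
        simpa using hx
      · intro x _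
        simp
      · intro x _
        simp
    have h2 := Tower.card_all hP hL
    have h3 : (T.f M : ℝ) * (B / 9) ≤ S.card := by
      have : (T.f M : ℝ) / 3 * (B / 3) ≤ (T.f M : ℝ) / 3 * ∑ i, 1 / (T.f (bas i) : ℝ) :=
        mul_le_mul_of_nonneg_left hB (by positivity)
      linarith
    have h4 : ((T.f M : ℝ) * (B / 9)) ^ 2 ≤ (S.card : ℝ) ^ 2 :=
      pow_le_pow_left₀ (by positivity) h3 2
    rw [h1, eN]
    push_cast
    calc _ = ((T.f M : ℝ) * (B / 9)) ^ 2 * ((T.f M : ℝ) * T.f M) ^ 2 := by ring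
      _ ≤ (S.card : ℝ) ^ 2 * ((T.f M : ℝ) * T.f M) ^ 2 :=
        mul_le_mul_of_nonneg_right h4 (by positivity)
      _ = _ := by ring

end Pool.Agent.MP_888de5_co
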