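import Mathlib

namespace Pool.Agent.MP_888de5_co

open Function Finset

/-- A key for which the classes of a chain of equivalence relations are convex. -/
theorem exists_key {α : Type} [Fintype α] (r : ℕ → α → α → Prop) (hr : ∀ i, Equivalence (r i))
    (hm : ∀ i j, i ≤ j → ∀ x y, r i x y → r j x y) (s : ℕ) :
    ∃ κ : α → ℕ, Injective κ ∧
      ∀ i < s, ∀ x y z, r i x y → κ x ≤ κ z → κ z ≤ κ y → r i x z := by
  classical
  induction s with
  | zero =>
    refine ⟨fun x => (Fintype.equivFin α x : ℕ), ?_, fun i hi => absurd hi (Nat.not_lt_zero i)⟩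
    exact Fin.val_injective.comp (Fintype.equivFin α).injective
  | succ s ih =>
    obtain ⟨κ, hκ, hc⟩ := ih
    let R : Setoid α := ⟨r s, hr s⟩
    let idx : α → ℕ := fun x => κ (Quotient.mk R x).out
    have hidx : ∀ x y, idx x = idx y ↔ r s x y := by
      intro x y
      constructor
      · intro h
        exact Quotient.exact (Quotient.out_injective (hκ h))
      · intro h
        have : Quotient.mk R x = Quotient.mk R y := Quotient.sound h
        simp only [idx, this]
    obtain ⟨D, hD⟩ : ∃ D, ∀ x, κ x < D :=
      ⟨univ.sup κ + 1, fun x => Nat.lt_succ_of_le (le_sup (mem_univ x))⟩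
    have hle : ∀ x z, idx x * D + κ x ≤ idx z * D + κ z → idx x ≤ idx z := by
      intro x z h
      by_contra hlt
      have h1 : (idx z + 1) * D ≤ idx x * D := Nat.mul_le_mul_right D (by omega)
      have h2 := hD z
      rw [add_mul, one_mul] at h1
      omega
    refine ⟨fun x => idx x * D + κ x, ?_, ?_⟩
    · intro x y h
      have h' : idx x * D + κ x = idx y * D + κ y := h
      have : idx x = idx y := le_antisymm (hle x y h'.le) (hle y x h'.ge)
      rw [this] at h'
      exact hκ (by omega)
    · intro i hi x y z hxy h1 h2
      have e1 : idx x = idx y := (hidx x y).mpr (hm i s (by omega) x y hxy)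
      have e2 : idx x = idx z := le_antisymm (hle x z h1) (e1 ▸ hle z y h2)
      rcases Nat.lt_succ_iff_lt_or_eq.mp hi with hi | rfl
      · dsimp only at h1 h2
        rw [← e2] at h1
        rw [← e2, ← e1] at h2
        exact hc i hi x y z hxy (by omega) (by omega)
      · exact (hidx x z).mp e2

/-- A numbering of a finite group in which the cosets of a chain of subgroups are intervals. -/
theorem exists_pos {G : Type} [AddCommGroup G] [Fintype G] (H : ℕ → AddSubgroup G)
    (hH : Monotone H) (s : ℕ) :
    ∃ pos : G → ℕ, Injective pos ∧ (∀ x, pos x < Fintype.card G) ∧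
      ∀ i < s, ∀ x y, x - y ∈ H i → pos x + 1 ≤ pos y + Nat.card (H i) := by
  classical
  obtain ⟨κ, hκ, hc⟩ := exists_key (fun i x y => x - y ∈ H i)
    (fun i => ⟨fun x => by simp, fun {x y} h => by simpa using (H i).neg_mem h,
      fun {x y z} h1 h2 => by simpa using (H i).add_mem h1 h2⟩)
    (fun i j hij x y h => hH hij h) s
  have hlt : ∀ x y, κ x < κ y →
      (univ.filter fun z => κ z < κ x).card < (univ.filter fun z => κ z < κ y).card := by
    intro x y h
    refine card_lt_card ⟨fun z hz => ?_, fun hs => ?_⟩
    · simp only [mem_filter, mem_univ, true_and] at hz ⊢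
      omega
    · have := hs (mem_filter.mpr ⟨mem_univ x, h⟩)
      simp at this
  refine ⟨fun x => (univ.filter fun z => κ z < κ x).card, ?_, ?_, ?_⟩
  · intro x y h
    rcases lt_trichotomy (κ x) (κ y) with h1 | h1 | h1
    · exact absurd h (hlt x y h1).ne
    · exact hκ h1
    · exact absurd h (hlt y x h1).ne'
  · intro x
    refine card_lt_card ⟨subset_univ _, fun hs => ?_⟩
    have := hs (mem_univ x)
    simp at this
  · intro i hi x y hxy
    have hyx : y - x ∈ H i := by simpa using (H i).neg_mem hxy
    have h1 : (univ.filter fun z => y - z ∈ H i).card = Nat.card (H i) := by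
      rw [Nat.card_eq_fintype_card, Fintype.card_subtype]
      refine card_nbij' (fun z => y - z) (fun z => y - z) ?_ ?_ ?_ ?_
      · intro z hz
        simpa using hz
      · intro z hz
        simpa using hz
      · intro z _
        simp
      · intro z _
        simp
    have h2 : insert x (univ.filter fun z => κ z < κ x) ⊆
        (univ.filter fun z => κ z < κ y) ∪ (univ.filter fun z => y - z ∈ H i) := by
      intro z hz
      have hz' : κ z ≤ κ x := by
        rcases mem_insert.mp hz with rfl | hz
        · exact le_rfl
        · exact (mem_filter.mp hz).2.le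
      simp only [mem_union, mem_filter, mem_univ, true_and]
      by_cases h : κ z < κ y
      · exact Or.inl h
      · exact Or.inr (hc i hi y x z hyx (by omega) hz')
    have h3 := (card_le_card h2).trans (card_union_le _ _)
    rw [card_insert_of_notMem (by simp), h1] at h3
    exact h3

/-- A nonempty fibre of an additive map is large. -/
theorem card_le_fiber {A B : Type} [AddCommGroup A] [Fintype A] [AddCommGroup B] [DecidableEq B]
    (ψ : A →+ B) (T : Finset B) (hT : ∀ x, ψ x ∈ T) (x0 : A) :
    Fintype.card A ≤ (univ.filter fun x => ψ x = ψ x0).card * T.card := by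
  classical
  refine card_le_mul_card_image_of_maps_to (s := univ) (f := ψ) (fun x _ => hT x) _ ?_
  intro b _
  rcases (univ.filter fun x => ψ x = b).eq_empty_or_nonempty with h | ⟨x1, hx1⟩
  · rw [h]; simp
  · have hb : ψ x1 = b := (mem_filter.mp hx1).2
    refine card_le_card_of_injOn (fun x => x - x1 + x0) ?_ ?_
    · intro x hx
      have hx' : ψ x = b := by simpa using hx
      simp [hx', hb]
    · intro x _ y _ h
      simpa using h

end Pool.Agent.MP_888de5_co
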