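import Pool.Agent.MP_888de5_co.Count

namespace Pool.Agent.MP_888de5_co

open Function MeasureTheory Set

/-- The open cell number `k` of a subdivision of the unit interval into `N` parts. -/
def cell (N k : ℕ) : Set ℝ := Ioo ((k : ℝ) / N) ((k + 1 : ℝ) / N)

theorem cell_eq {N j k : ℕ} (hN : 0 < N) {x : ℝ} (hj : x ∈ cell N j) (hk : x ∈ cell N k) :
    j = k := by
  have hN' : (0 : ℝ) < N := by exact_mod_cast hN
  have h1 := hj.1.trans hk.2
  have h2 := hk.1.trans hj.2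
  rw [div_lt_div_iff_of_pos_right hN'] at h1 h2
  have h3 : j < k + 1 := by exact_mod_cast h1
  have h4 : k < j + 1 := by exact_mod_cast h2
  omega

theorem cell_sub {N j k a : ℕ} (hN : 0 < N) {x y : ℝ} (hj : x ∈ cell N j) (hk : y ∈ cell N k)
    (h : k + 1 ≤ j + a) : y - x < a / N := by
  have hN' : (0 : ℝ) < N := by exact_mod_cast hN
  have h1 : (k + 1 : ℝ) ≤ j + a := by exact_mod_cast h
  have h2 : (k + 1 : ℝ) / N ≤ j / N + a / N := by
    rw [← add_div]
    exact div_le_div_of_nonneg_right h1 hN'.le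
  linarith [hj.1, hk.2]

theorem cell_subset {N k : ℕ} (hk : k < N) : cell N k ⊆ Icc 0 1 := by
  have hN' : (0 : ℝ) < N := by exact_mod_cast (Nat.zero_le k).trans_lt hk
  intro x hx
  have h1 : (0 : ℝ) ≤ k / N := by positivity
  have h2 : (k + 1 : ℝ) / N ≤ 1 := by
    rw [div_le_one hN']
    exact_mod_cast hk
  exact ⟨h1.trans hx.1.le, hx.2.le.trans h2⟩

theorem volume_cell (N k : ℕ) : volume (cell N k) = ENNReal.ofReal (1 / N) := by
  rw [cell, Real.volume_Ioo]
  congr 1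
  ring

theorem no_constant (c : ℝ) (hc : 0 < c) : ∃ A : Set (ℝ × ℝ), IsOpen A ∧
    A ⊆ Icc (0 : ℝ) 1 ×ˢ Icc (0 : ℝ) 1 ∧ A.Nonempty ∧
    ∀ x₁ x₂ y₁ y₂ : ℝ, x₁ < x₂ → y₁ < y₂ → (x₁, y₁) ∈ A → (x₁, y₂) ∈ A → (x₂, y₁) ∈ A →
      (x₂, y₂) ∈ A → (x₂ - x₁) * (y₂ - y₁) < c * ((volume A).toReal) ^ 2 := by
  classical
  obtain ⟨B, hB⟩ := exists_nat_ge (9 * (1 + 1 / c))
  obtain ⟨G, _, pos, E, hN, hinj, hlt, hrect, hE⟩ := exists_cells B
  set N := Fintype.card G
  have hN' : (0 : ℝ) < N := by exact_mod_cast hN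
  have hc' : 0 < 1 / c := by positivity
  have hB1 : 1 / c ≤ ((B : ℝ) / 9) ^ 2 := by nlinarith
  have hE1 : (N : ℝ) ^ 3 ≤ c * (E.card : ℝ) ^ 2 := by
    have h1 : 1 / c * (N : ℝ) ^ 3 ≤ (E.card : ℝ) ^ 2 :=
      (mul_le_mul_of_nonneg_right hB1 (by positivity)).trans hE
    rw [div_mul_eq_mul_div, one_mul, div_le_iff₀ hc] at h1
    linarith
  have hvol : (volume (⋃ e ∈ E, cell N (pos e.1) ×ˢ cell N (pos e.2))).toReal =
      E.card / (N : ℝ) ^ 2 := by
    rw [measure_biUnion_finset]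
    · simp only [Measure.volume_eq_prod, Measure.prod_prod, volume_cell, Finset.sum_const,
        nsmul_eq_mul, ENNReal.toReal_mul, ENNReal.toReal_natCast]
      rw [ENNReal.toReal_ofReal (by positivity)]
      field_simp
    · intro e _ e' _ hne
      rw [Function.onFun, Set.disjoint_left]
      intro x h1 h2
      exact hne (Prod.ext (hinj (cell_eq hN h1.1 h2.1)) (hinj (cell_eq hN h1.2 h2.2)))
    · intro e _
      exact measurableSet_Ioo.prod measurableSet_Ioo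
  refine ⟨⋃ e ∈ E, cell N (pos e.1) ×ˢ cell N (pos e.2),
    isOpen_biUnion fun e _ => isOpen_Ioo.prod isOpen_Ioo, ?_, ?_, ?_⟩
  · exact iUnion₂_subset fun e _ => prod_mono (cell_subset (hlt _)) (cell_subset (hlt _))
  · obtain ⟨e, he⟩ : E.Nonempty := by
      rw [← Finset.card_pos]
      by_contra h0
      have : E.card = 0 := by omega
      rw [this] at hE1
      have : (0 : ℝ) < (N : ℝ) ^ 3 := by positivity
      simp at hE1
      linarith
    have hne : ∀ k, (cell N k).Nonempty := fun k =>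
      nonempty_Ioo.mpr (div_lt_div_of_pos_right (by linarith) hN')
    exact ((hne _).prod (hne _)).mono (subset_biUnion_of_mem
      (u := fun e : G × G => cell N (pos e.1) ×ˢ cell N (pos e.2)) he)
  · intro x₁ x₂ y₁ y₂ hx hy h11 h12 h21 h22
    simp only [mem_iUnion, mem_prod] at h11 h12 h21 h22
    obtain ⟨⟨g1, k1⟩, e11, a11, b11⟩ := h11
    obtain ⟨⟨g1', k2⟩, e12, a12, b12⟩ := h12
    obtain ⟨⟨g2, k1'⟩, e21, a21, b21⟩ := h21
    obtain ⟨⟨g2', k2'⟩, e22, a22, b22⟩ := h22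
    obtain rfl : g1 = g1' := hinj (cell_eq hN a11 a12)
    obtain rfl : g2 = g2' := hinj (cell_eq hN a21 a22)
    obtain rfl : k1 = k1' := hinj (cell_eq hN b11 b21)
    obtain rfl : k2 = k2' := hinj (cell_eq hN b12 b22)
    obtain ⟨a, b, hab, ha, hb⟩ := hrect g1 g2 k1 k2 e11 e12 e21 e22
    have h1 := cell_sub hN a11 a21 ha
    have h2 := cell_sub hN b11 b12 hb
    have hab' : (a : ℝ) * b ≤ N := by exact_mod_cast hab
    rw [hvol]
    calc (x₂ - x₁) * (y₂ - y₁) < a / N * (b / N) :=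
          mul_lt_mul'' h1 h2 (by linarith) (by linarith)
      _ = a * b / (N : ℝ) ^ 2 := by field_simp
      _ ≤ N / (N : ℝ) ^ 2 := div_le_div_of_nonneg_right hab' (by positivity)
      _ = (N : ℝ) ^ 3 / (N : ℝ) ^ 4 := by field_simp
      _ ≤ c * (E.card : ℝ) ^ 2 / (N : ℝ) ^ 4 := div_le_div_of_nonneg_right hE1 (by positivity)
      _ = _ := by field_simp

end Pool.Agent.MP_888de5_co
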