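import Mathlib

namespace Pool.Agent.MP_888de5_co

open Function

/-- A strictly increasing tower of finite fields of characteristic three. -/
structure Tower (Ω : Type) [Field Ω] where
  F : ℕ → Subfield Ω
  fin : ∀ n, Finite (F n)
  mono : Monotone F
  p : ℕ → Ω →+ Ω
  p_mem : ∀ n x, p n x ∈ F n
  p_id : ∀ n x, x ∈ F n → p n x = x
  p_mul : ∀ n h x, h ∈ F n → p n (h * x) = h * p n x
  φ : ℕ → Ω →+ ZMod 3
  φ_zero : ∀ n x, x ∈ F n → φ (n + 1) x = 0
  φ_one : ∀ n, ∃ x ∈ F (n + 1), φ (n + 1) x = 1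
  two : (2 : Ω) ≠ 0

theorem exists_tower : Nonempty (Tower (AlgebraicClosure (ZMod 3))) := by
  classical
  haveI : Fact (Nat.Prime 3) := ⟨by norm_num⟩
  set Ω := AlgebraicClosure (ZMod 3)
  have hfin : ∀ E : IntermediateField (ZMod 3) Ω, FiniteDimensional (ZMod 3) E → Finite E :=
    fun E _ => Module.finite_of_finite (ZMod 3)
  have step : ∀ E : {E : IntermediateField (ZMod 3) Ω // FiniteDimensional (ZMod 3) E},
      ∃ E' : {E : IntermediateField (ZMod 3) Ω // FiniteDimensional (ZMod 3) E},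
        E.1 ≤ E'.1 ∧ ∃ φ : Ω →+ ZMod 3, (∀ x ∈ E.1, φ x = 0) ∧ ∃ x ∈ E'.1, φ x = 1 := by
    rintro ⟨E, hE⟩
    haveI := hfin E hE
    obtain ⟨α, hα⟩ : ∃ α : Ω, α ∉ E := by
      by_contra hne
      push Not at hne
      haveI : Finite Ω := Finite.of_surjective (fun x : E => (x : Ω)) fun y => ⟨⟨y, hne y⟩, rfl⟩
      exact not_finite Ω
    haveI : FiniteDimensional (ZMod 3) (IntermediateField.adjoin (ZMod 3) {α}) :=
      IntermediateField.adjoin.finiteDimensional (Algebra.IsIntegral.isIntegral α)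
    obtain ⟨f, hf1, hf2⟩ := Submodule.exists_le_ker_of_notMem
      (p := Subalgebra.toSubmodule E.toSubalgebra) (v := α) hα
    refine ⟨⟨E ⊔ IntermediateField.adjoin (ZMod 3) {α}, inferInstance⟩, le_sup_left,
      ((f α)⁻¹ • f).toAddMonoidHom, fun x hx => ?_, α, ?_, ?_⟩
    · have : f x = 0 := hf2 hx
      simp [this]
    · exact (le_sup_right : IntermediateField.adjoin (ZMod 3) {α} ≤ _)
        (IntermediateField.mem_adjoin_simple_self _ _)
    · simp [inv_mul_cancel₀ hf1]
  choose nxt hle φ hφ0 hφ1 using step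
  let E : ℕ → {E : IntermediateField (ZMod 3) Ω // FiniteDimensional (ZMod 3) E} :=
    fun n => Nat.rec ⟨⊥, inferInstance⟩ (fun _ E => nxt E) n
  have proj : ∀ K : IntermediateField (ZMod 3) Ω, ∃ p : Ω →+ Ω, (∀ x, p x ∈ K) ∧
      (∀ x ∈ K, p x = x) ∧ ∀ h x, h ∈ K → p (h * x) = h * p x := by
    intro K
    obtain ⟨g, hg⟩ := LinearMap.exists_leftInverse_of_injective (Algebra.linearMap K Ω)
      (LinearMap.ker_eq_bot.mpr (algebraMap K Ω).injective)
    refine ⟨((Algebra.linearMap K Ω).comp g).toAddMonoidHom, fun x => (g x).2, fun x hx => ?_,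
      fun h x hh => ?_⟩
    · exact congrArg Subtype.val (LinearMap.congr_fun hg ⟨x, hx⟩)
    · exact ((Algebra.linearMap K Ω).comp g).map_smul (⟨h, hh⟩ : K) x
  choose p hp1 hp2 hp3 using proj
  refine ⟨{
    F := fun n => (E n).1.toSubfield
    fin := fun n => hfin _ (E n).2
    mono := monotone_nat_of_le_succ fun n => hle (E n)
    p := fun n => p (E n).1
    p_mem := fun n => hp1 _
    p_id := fun n => hp2 _
    p_mul := fun n => hp3 _
    φ := fun n => φ (E (n - 1))
    φ_zero := fun n => hφ0 (E n)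
    φ_one := fun n => hφ1 (E n)
    two := ?_ }⟩
  intro h
  have h2 : ((2 : ℕ) : Ω) = 0 := by exact_mod_cast h
  rw [CharP.cast_eq_zero_iff Ω 3] at h2
  omega

namespace Tower

variable {Ω : Type} [Field Ω] (T : Tower Ω)

/-- Compatible projections onto the fields of the tower up to level `M`. -/
structure Proj (M : ℕ) (π : ℕ → Ω →+ Ω) : Prop where
  mem : ∀ n ≤ M, ∀ x, π n x ∈ T.F n
  id : ∀ n ≤ M, ∀ x ∈ T.F n, π n x = x
  mul : ∀ n ≤ M, ∀ h x, h ∈ T.F n → π n (h * x) = h * π n x
  comp : ∀ j n, j ≤ n → n ≤ M → ∀ x, π j (π n x) = π j x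

theorem exists_proj (M : ℕ) : ∃ π, T.Proj M π := by
  induction M with
  | zero =>
    refine ⟨T.p, fun n _ => T.p_mem n, fun n _ => T.p_id n, fun n _ => T.p_mul n, ?_⟩
    intro j n hj hn x
    obtain rfl : n = 0 := by omega
    obtain rfl : j = 0 := by omega
    exact T.p_id _ _ (T.p_mem _ _)
  | succ M ih =>
    obtain ⟨π, h⟩ := ih
    refine ⟨fun n => if n ≤ M then (π n).comp (T.p (M + 1)) else T.p (M + 1), ?_, ?_, ?_, ?_⟩
    · intro n hn x
      by_cases hM : n ≤ M
      · simp only [if_pos hM]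
        exact h.mem n hM _
      · obtain rfl : n = M + 1 := by omega
        simp only [if_neg hM]
        exact T.p_mem _ _
    · intro n hn x hx
      by_cases hM : n ≤ M
      · simp only [if_pos hM, AddMonoidHom.comp_apply]
        rw [T.p_id _ _ (T.mono hn hx), h.id n hM x hx]
      · obtain rfl : n = M + 1 := by omega
        simp only [if_neg hM]
        exact T.p_id _ _ hx
    · intro n hn a x ha
      by_cases hM : n ≤ M
      · simp only [if_pos hM, AddMonoidHom.comp_apply]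
        rw [T.p_mul _ _ _ (T.mono hn ha), h.mul n hM _ _ ha]
      · obtain rfl : n = M + 1 := by omega
        simp only [if_neg hM]
        exact T.p_mul _ _ _ ha
    · intro j n hj hn x
      by_cases hM : n ≤ M
      · simp only [if_pos hM, if_pos (hj.trans hM), AddMonoidHom.comp_apply]
        rw [T.p_id _ _ (T.mono hn (h.mem n hM _)), h.comp j n hj hM]
      · by_cases hM' : j ≤ M
        · simp only [if_neg hM, if_pos hM', AddMonoidHom.comp_apply]
          rw [T.p_id _ _ (T.p_mem _ _)]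
        · simp only [if_neg hM, if_neg hM']
          rw [T.p_id _ _ (T.p_mem _ _)]

theorem φ_lt {j n : ℕ} (h : j < n) {x : Ω} (hx : x ∈ T.F j) : T.φ n x = 0 := by
  obtain ⟨m, rfl⟩ : ∃ m, n = m + 1 := ⟨n - 1, by omega⟩
  exact T.φ_zero m x (T.mono (by omega) hx)

end Tower

end Pool.Agent.MP_888de5_co
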