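import Pool.Agent.MP_888de5_co.Order
import Pool.Agent.MP_888de5_co.Tower

namespace Pool.Agent.MP_888de5_co

open Function Finset

namespace Tower

variable {Ω : Type} [Field Ω] (T : Tower Ω)

/-- The size of the `n`-th field. -/
noncomputable def f (n : ℕ) : ℕ := Nat.card (T.F n)

theorem f_pos (n : ℕ) : 0 < T.f n := by
  have := T.fin n
  exact Nat.card_pos

/-- A system of levels, each with a base level and a label in the base field. -/
structure Levels (M : ℕ) {ι : Type} (lev bas : ι → ℕ) (lab : ι → Ω) : Prop where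
  inj : Injective lev
  lt : ∀ i, bas i < lev i
  le : ∀ i, lev i ≤ M
  mem : ∀ i, lab i ∈ T.F (bas i)
  two : ∀ i, T.φ (bas i) (lab i) = 2
  sep : ∀ i j, lev j < lev i → lev j ≤ bas i ∨ (bas j = bas i ∧ lab j ≠ lab i)

theorem exists_levels (B : ℕ) : ∃ (M : ℕ) (ι : Type) (_ : Fintype ι) (lev bas : ι → ℕ)
    (lab : ι → Ω), 1 ≤ M ∧ T.Levels M lev bas lab ∧ (B : ℝ) / 3 ≤ ∑ i, 1 / (T.f (bas i) : ℝ) := by
  classical
  induction B with
  | zero =>
    exact ⟨1, Empty, inferInstance, fun i => i.elim, fun i => i.elim, fun i => i.elim, le_rfl,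
      ⟨fun i => i.elim, fun i => i.elim, fun i => i.elim, fun i => i.elim, fun i => i.elim,
        fun i => i.elim⟩, by simp⟩
  | succ B ih =>
    obtain ⟨M, ι, _, lev, bas, lab, hM, h, hs⟩ := ih
    have := T.fin M
    have : Fintype (T.F M) := Fintype.ofFinite _
    obtain ⟨m, rfl⟩ : ∃ m, M = m + 1 := ⟨M - 1, by omega⟩
    obtain ⟨e, he, he1⟩ := T.φ_one m
    let ψ : T.F (m + 1) →+ ZMod 3 := (T.φ (m + 1)).comp (T.F (m + 1)).subtype.toAddMonoidHom
    have hψ : ψ ⟨e + e, add_mem he he⟩ = 2 := by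
      change T.φ (m + 1) (e + e) = 2
      rw [map_add, he1]; rfl
    have hc := card_le_fiber ψ univ (fun _ => mem_univ _) ⟨e + e, add_mem he he⟩
    rw [hψ, card_univ, ZMod.card] at hc
    set L := univ.filter fun x => ψ x = 2 with hL
    let g : Fin L.card ≃ L := L.equivFin.symm
    refine ⟨m + 1 + L.card, ι ⊕ Fin L.card, inferInstance,
      Sum.elim lev fun k => m + 2 + k, Sum.elim bas fun _ => m + 1,
      Sum.elim lab fun k => ((g k).1 : Ω), by omega, ⟨?_, ?_, ?_, ?_, ?_, ?_⟩, ?_⟩
    · rintro (i | i) (j | j) hij <;> simp only [Sum.elim_inl, Sum.elim_inr] at hij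
      · rw [h.inj hij]
      · have := h.le i; omega
      · have := h.le j; omega
      · rw [Fin.ext (show (i : ℕ) = j by omega)]
    · rintro (i | i)
      · exact h.lt i
      · simp only [Sum.elim_inr]; omega
    · rintro (i | i)
      · have := h.le i; simp only [Sum.elim_inl]; omega
      · have := i.2; simp only [Sum.elim_inr]; omega
    · rintro (i | i)
      · exact h.mem i
      · exact (g i).1.2
    · rintro (i | i)
      · exact h.two i
      · exact (mem_filter.mp (g i).2).2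
    · rintro (i | i) (j | j) hij <;> simp only [Sum.elim_inl, Sum.elim_inr] at hij ⊢
      · exact h.sep i j hij
      · have := h.le i; omega
      · exact Or.inl (h.le j)
      · refine Or.inr ⟨trivial, fun hh => ?_⟩
        have := g.injective (Subtype.ext (Subtype.ext hh))
        subst this
        omega
    · rw [Fintype.sum_sum_type]
      simp only [Sum.elim_inl, Sum.elim_inr, sum_const, card_univ, Fintype.card_fin, nsmul_eq_mul]
      have h1 : (T.f (m + 1) : ℝ) ≤ L.card * 3 := by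
        rw [f, Nat.card_eq_fintype_card]
        exact_mod_cast hc
      have h2 : (0 : ℝ) < T.f (m + 1) := by exact_mod_cast T.f_pos _
      have h3 : (1 : ℝ) / 3 ≤ L.card * (1 / T.f (m + 1)) := by
        rw [mul_one_div, div_le_div_iff₀ (by norm_num) h2]
        linarith
      push_cast
      linarith

variable {T} {M : ℕ} {π : ℕ → Ω →+ Ω} {ι : Type} {lev bas : ι → ℕ} {lab : ι → Ω}

/-- The points of level `i`. -/
structure At (T : Tower Ω) (π : ℕ → Ω →+ Ω) (lev bas : ι → ℕ) (lab : ι → Ω) (i : ι) (X v : Ω) :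
    Prop where
  mem : X ∈ T.F (lev i)
  one : T.φ (lev i) X = 1
  lab : π (bas i) X = lab i
  sq : π (lev i) v = X ^ 2

theorem two_low (hP : T.Proj M π) (hL : T.Levels M lev bas lab) {i j k : ι}
    {Xa va Xb vb Xc vc Xd vd : Ω} (ha : At T π lev bas lab i Xa va)
    (hb : At T π lev bas lab i Xb vb) (hc : At T π lev bas lab j Xc vc)
    (hd : At T π lev bas lab k Xd vd) (hj : lev j < lev i) (hk : lev k < lev i)
    (hX : Xa - Xb = Xc - Xd) (hv : va - vb = vc - vd) : Xa = Xb := by
  have hbM : bas i ≤ M := (hL.lt i).le.trans (hL.le i)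
  have h0 : π (bas i) Xc = π (bas i) Xd := by
    rw [← sub_eq_zero, ← map_sub, ← hX, map_sub, ha.lab, hb.lab, sub_self]
  have old : ∀ {l : ι} {X v : Ω}, At T π lev bas lab l X v → lev l ≤ bas i →
      π (bas i) X = X ∧ T.φ (bas i) X ≠ 2 := by
    intro l X v h hl
    refine ⟨hP.id _ hbM _ (T.mono hl h.mem), ?_⟩
    rcases hl.lt_or_eq with hl | hl
    · rw [T.φ_lt hl h.mem]; decide
    · rw [← hl, h.one]; decide
  rcases hL.sep i j hj with h1 | ⟨h1, h1'⟩ <;> rcases hL.sep i k hk with h2 | ⟨h2, h2'⟩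
  · rw [(old hc h1).1, (old hd h2).1] at h0
    rw [← sub_eq_zero, hX, h0, sub_self]
  · rw [(old hc h1).1, ← h2, hd.lab] at h0
    exact absurd (by rw [h0, ← h2, hL.two]) (old hc h1).2
  · rw [(old hd h2).1, ← h1, hc.lab] at h0
    exact absurd (by rw [← h0, ← h1, hL.two]) (old hd h2).2
  · have h3 : lab j = lab k := by rw [← hc.lab, ← hd.lab, h1, h2, h0]
    have hjk : j = k := by
      apply hL.inj
      have e1 := hL.lt j
      have e2 := hL.lt k
      rcases lt_trichotomy (lev j) (lev k) with h | h | h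
      · rcases hL.sep k j h with h4 | h4
        · omega
        · exact absurd h3 h4.2
      · exact h
      · rcases hL.sep j k h with h4 | h4
        · omega
        · exact absurd h3.symm h4.2
    subst hjk
    by_contra hne
    have hh : Xa - Xb ≠ 0 := sub_ne_zero.mpr hne
    have hmem : Xa - Xb ∈ T.F (lev j) := by rw [hX]; exact sub_mem hc.mem hd.mem
    have e1 : π (lev i) (va - vb) = (Xa - Xb) * (Xa + Xb) := by
      rw [map_sub, ha.sq, hb.sq]; ring
    have e2 : π (lev j) (va - vb) = (Xa - Xb) * (Xc + Xd) := by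
      rw [hv, map_sub, hc.sq, hd.sq, hX]; ring
    have e3 : π (lev j) (Xa + Xb) = Xc + Xd := by
      apply mul_left_cancel₀ hh
      rw [← hP.mul _ (hL.le j) _ _ hmem, ← e1, hP.comp _ _ hj.le (hL.le i), e2]
    have e4 := congrArg (π (bas i)) e3
    rw [hP.comp _ _ (h1 ▸ (hL.lt j).le) (hL.le j), map_add, map_add, ha.lab, hb.lab, ← h1, hc.lab,
      hd.lab] at e4
    apply h1'
    apply mul_left_cancel₀ T.two
    linear_combination -e4

/-- The multi-scale Sidon property. -/
theorem sidon (hP : T.Proj M π) (hL : T.Levels M lev bas lab) {ia ib ic id : ι}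
    {Xa va Xb vb Xc vc Xd vd : Ω} (ha : At T π lev bas lab ia Xa va)
    (hb : At T π lev bas lab ib Xb vb) (hc : At T π lev bas lab ic Xc vc)
    (hd : At T π lev bas lab id Xd vd) (hX : Xa + Xd = Xb + Xc) (hv : va + vd = vb + vc) :
    ∃ n ≤ M, (Xa = Xb ∧ π n (va - vb) = 0 ∧ Xa - Xc ∈ T.F n) ∨
      (Xa = Xc ∧ π n (va - vc) = 0 ∧ Xa - Xb ∈ T.F n) := by
  obtain ⟨i, hi, h1, h2, h3, h4⟩ : ∃ i, (ia = i ∨ ib = i ∨ ic = i ∨ id = i) ∧ lev ia ≤ lev i ∧
      lev ib ≤ lev i ∧ lev ic ≤ lev i ∧ lev id ≤ lev i := by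
    by_contra hne
    push Not at hne
    have e1 := hne ia (by simp) le_rfl
    have e2 := hne ib (by simp)
    have e3 := hne ic (by simp)
    have e4 := hne id (by simp)
    omega
  have key : ∀ {l : ι} {X v : Ω}, At T π lev bas lab l X v → lev l ≤ lev i →
      X ∈ T.F (lev i) ∧ ((l = i ∧ T.φ (lev i) X = 1) ∨ (lev l < lev i ∧ T.φ (lev i) X = 0)) := by
    intro l X v h hl
    refine ⟨T.mono hl h.mem, ?_⟩
    rcases hl.lt_or_eq with hl | hl
    · exact Or.inr ⟨hl, T.φ_lt hl h.mem⟩
    · exact Or.inl ⟨hL.inj hl, hl ▸ h.one⟩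
  obtain ⟨ma, ka⟩ := key ha h1
  obtain ⟨mb, kb⟩ := key hb h2
  obtain ⟨mc, kc⟩ := key hc h3
  obtain ⟨md, kd⟩ := key hd h4
  have hφ := congrArg (T.φ (lev i)) hX
  rw [map_add, map_add] at hφ
  have sq0 : ∀ {X v X' v' : Ω}, At T π lev bas lab i X v → At T π lev bas lab i X' v' → X = X' →
      π (lev i) (v - v') = 0 := fun h h' e => by rw [map_sub, h.sq, h'.sq, e, sub_self]
  refine ⟨lev i, hL.le i, ?_⟩
  rcases ka with ⟨rfl, ka⟩ | ⟨la, ka⟩ <;> rcases kb with ⟨eb, kb⟩ | ⟨lb, kb⟩ <;>
    rcases kc with ⟨ec, kc⟩ | ⟨lc, kc⟩ <;> rcases kd with ⟨ed, kd⟩ | ⟨ld, kd⟩ <;>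
    rw [ka, kb, kc, kd] at hφ <;> try exact absurd hφ (by decide)
  · subst eb ec ed
    have e := congrArg (π (lev id)) hv
    rw [map_add, map_add, ha.sq, hb.sq, hc.sq, hd.sq] at e
    have e2 : 2 * ((Xa - Xb) * (Xa - Xc)) = 0 := by
      have : Xd = Xb + Xc - Xa := by linear_combination hX
      subst this
      linear_combination e
    rcases mul_eq_zero.mp ((mul_eq_zero.mp e2).resolve_left T.two) with h | h
    · exact Or.inl ⟨sub_eq_zero.mp h, sq0 ha hb (sub_eq_zero.mp h), sub_mem ma mc⟩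
    · exact Or.inr ⟨sub_eq_zero.mp h, sq0 ha hc (sub_eq_zero.mp h), sub_mem ma mb⟩
  · subst eb
    have := two_low hP hL ha hb hc hd lc ld (by linear_combination hX) (by linear_combination hv)
    exact Or.inl ⟨this, sq0 ha hb this, sub_mem ma mc⟩
  · subst ec
    have := two_low hP hL ha hc hb hd lb ld (by linear_combination hX) (by linear_combination hv)
    exact Or.inr ⟨this, sq0 ha hc this, sub_mem ma mb⟩
  · subst eb
    subst ed
    have := two_low hP hL hd hb hc ha lc la (by linear_combination hX) (by linear_combination hv)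
    refine Or.inr ⟨by linear_combination hX - this, ?_, sub_mem ma mb⟩
    rw [show va - vc = -(vd - vb) by linear_combination hv, map_neg, sq0 hd hb this, neg_zero]
  · subst ec
    subst ed
    have := two_low hP hL hd hc hb ha lb la (by linear_combination hX) (by linear_combination hv)
    refine Or.inl ⟨by linear_combination hX - this, ?_, sub_mem ma mc⟩
    rw [show va - vb = -(vd - vc) by linear_combination hv, map_neg, sq0 hd hc this, neg_zero]
  · rcases hi with rfl | rfl | rfl | rfl <;> omega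

end Tower

end Pool.Agent.MP_888de5_co
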